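import Mathlib
import Pool.Agent.Lib.helper10.Amp

/-!
The amplitude of the 17-cycle at a nearly regular planar convex 17-gon is about 0.935.
-/

namespace Pool.Agent.Results.MP_229e70_co.Cycle17

open Pool.Agent.H10Amp SimpleGraph

def aL (k : Fin 17) : ℤ × ℤ :=
  [(1, 0), (12, 2), (11, 4), (10, 6), (9, 8), (7, 10), (5, 11), (3, 12), (1, 12), (-1, 12),
   (-3, 12), (-5, 11), (-7, 10), (-9, 8), (-10, 6), (-11, 4), (-12, 2)].getD k.val (1, 0)

def xL (k : Fin 17) : ℤ × ℤ × ℤ :=
  [(0, 0, 0), (0, 0, 198), (48, 0, 338), (136, 0, 443), (256, 0, 507), (400, 0, 524),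
   (540, 0, 473), (650, 0, 377), (722, 0, 242), (746, 0, 99), (722, 0, -44), (650, 0, -179),
   (540, 0, -275), (400, 0, -326), (256, 0, -309), (136, 0, -245), (48, 0, -140)].getD k.val
    (0, 0, 0)

def lamL (k : Fin 17) : ℤ := if k = 0 then 198 else 1

def g (i j : Fin 17) : GaussianInt × GaussianInt :=
  if j = i + 1 then (⟨(aL i).1, 0⟩, ⟨(aL i).2, 0⟩) else (⟨-(aL j).2, 0⟩, ⟨(aL j).1, 0⟩)

def lam (i j : Fin 17) : ℤ := if j = i + 1 then lamL i else lamL j

def nb (i j : Fin 17) : Fin 17 := i + i - j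

theorem good : ∀ i j, (cycleGraph 17).Adj i j → Good (xL i) (xL j) (lam i j) (g i j) := by
  decide +kernel

theorem deg2 : Deg2 (cycleGraph 17) nb (fun _ => true) :=
  ⟨by decide +kernel, by decide +kernel, by decide +kernel, by decide +kernel, by decide +kernel⟩

theorem adj_succ : ∀ k : Fin 17, (cycleGraph 17).Adj k (k + 1) := by decide +kernel

def emb : Fin 17 ↪ (cycleGraph 17).Dart :=
  ⟨fun k => ⟨(k, k + 1), adj_succ k⟩, fun _ _ h => congrArg (fun d => d.fst) h⟩

def Δ : Finset (cycleGraph 17).Dart := Finset.univ.map emb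

theorem mem_Δ (d : (cycleGraph 17).Dart) : d ∈ Δ ↔ d.snd = d.fst + 1 := by
  unfold Δ
  rw [Finset.mem_map]
  constructor
  · rintro ⟨k, _, rfl⟩
    rfl
  · intro h
    exact ⟨d.fst, Finset.mem_univ _, dart_eq rfl h.symm⟩

theorem orient : IsOrientation (cycleGraph 17) Δ := by
  intro d
  rw [mem_Δ, mem_Δ]
  have key : ∀ i j : Fin 17, (cycleGraph 17).Adj i j → (j = i + 1 ↔ ¬ i = j + 1) := by
    decide +kernel
  exact key _ _ d.adj

def f (k : ℕ) (b c : Bool) : GaussianInt :=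
  term nb g (Fin.ofNat 17 k) (Fin.ofNat 17 (k + 1)) b c

theorem prod_Δ (s : Fin 17 → Bool) :
    ∏ d ∈ Δ, term nb g d.fst d.snd (s d.fst) (s d.snd) =
      (∏ k : Fin 16, f k (s k.castSucc) (s k.succ)) * f 16 (s (Fin.last 16)) (s 0) := by
  unfold Δ
  rw [Finset.prod_map, Fin.prod_univ_castSucc]
  congr 1

theorem num_eq : ∑ s : Fin 17 → Bool, ∏ d ∈ Δ, term nb g d.fst d.snd (s d.fst) (s d.snd) =
    ((34817919643020717620689535596228608 : ℤ) : GaussianInt) := by
  simp only [prod_Δ]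
  rw [transfer f 16 (fun a b => f 16 b a)]
  decide +kernel

theorem den_eq : ∏ d ∈ Δ, term nb g d.fst d.snd false false =
    ((37237069968507459150163267299840000 : ℤ) : GaussianInt) := by
  rw [prod_Δ (fun _ => false)]
  decide +kernel

theorem result : ∃ (n : ℕ) (G : SimpleGraph (Fin n)) (x : Fin n → EuclideanSpace ℝ (Fin 3))
    (ψ : G.Dart → Fin 2 → ℂ) (Δ : Finset G.Dart),
    Admissible G x ∧ IsSpinorChoice G x ψ ∧ IsOrientation G Δ ∧ ‖amplitude G ψ Δ‖ < 1 := by
  refine ⟨17, cycleGraph 17, fun i => toE (xL i),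
    fun d => cf (g d.fst d.snd) • toC (g d.fst d.snd), Δ, fun i j h => good_ne (good i j h),
    fun d => good_spinor (good _ _ d.adj), orient, ?_⟩
  rw [amplitude_eq deg2 orient g (fun i j h => (good i j h).2.1) Finset.univ (fun s => by simp),
    num_eq, den_eq, map_intCast, map_intCast, norm_div, Complex.norm_intCast,
    Complex.norm_intCast]
  norm_num

end Pool.Agent.Results.MP_229e70_co.Cycle17
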